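import Mathlib

/-!
# MP_0548d2_gt : stable local structure does not imply strongly stable local structure

We exhibit a poset module over `ℚ` on the four element crown poset whose local structure is
stable but not strongly stable.
-/

namespace Pool.Agent.Results.MP_0548d2_gt.NotStrong

open Set

/-- A `C`-module over the field `k` : a functor from the poset `C` to finite dimensional
`k`-vector spaces. -/
structure PosetModule (k C : Type) [Field k] [PartialOrder C] where
  /-- the vector space at an object -/
  obj : C → Type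
  /-- group structure -/
  [acg : ∀ x, AddCommGroup (obj x)]
  /-- module structure -/
  [mod : ∀ x, Module k (obj x)]
  /-- finite dimensionality -/
  [fin : ∀ x, FiniteDimensional k (obj x)]
  /-- the structure map `φ_{xy}` -/
  map : ∀ {x y : C}, x ≤ y → obj x →ₗ[k] obj y
  map_id : ∀ x : C, map (le_refl x) = LinearMap.id
  map_comp : ∀ {x y z : C} (h : x ≤ y) (h' : y ≤ z), map (h.trans h') = map h' ∘ₗ map h

attribute [instance] PosetModule.acg PosetModule.mod PosetModule.fin

section
variable {k : Type} [Field k]

/-- A multi-flag: a set of subspaces containing `{0}` and `V`, closed under intersection. -/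
def IsMultiFlag {V : Type} [AddCommGroup V] [Module k V] (S : Set (Submodule k V)) : Prop :=
  ⊥ ∈ S ∧ ⊤ ∈ S ∧ ∀ T : Set (Submodule k V), T ⊆ S → T.Nonempty → sInf T ∈ S

/-- The multi-flag generated by a set of subspaces: the intersection of all multi-flags
containing it. -/
def gen {V : Type} [AddCommGroup V] [Module k V] (T : Set (Submodule k V)) :
    Set (Submodule k V) :=
  ⋂₀ {S | IsMultiFlag S ∧ T ⊆ S}

variable {C : Type} [PartialOrder C]

/-- `F_0(M)(x)` : generated by kernels of outgoing maps and images of incoming maps. -/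
def localZero (M : PosetModule k C) (x : C) : Set (Submodule k (M.obj x)) :=
  gen ({W | ∃ (y : C) (h : x ≤ y), W = LinearMap.ker (M.map h)} ∪
    {W | ∃ (z : C) (h : z ≤ x), W = LinearMap.range (M.map h)})

/-- One step of the recursion: the multi-flag generated by all preimages `φ_{xy}⁻¹[W]`,
`W ∈ G y`, and all images `φ_{zx}(W)`, `W ∈ G z`. -/
def step (M : PosetModule k C) (G : ∀ x, Set (Submodule k (M.obj x))) (x : C) :
    Set (Submodule k (M.obj x)) :=
  gen ({W | ∃ (y : C) (h : x ≤ y), ∃ W' ∈ G y, W = W'.comap (M.map h)} ∪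
    {W | ∃ (z : C) (h : z ≤ x), ∃ W' ∈ G z, W = W'.map (M.map h)})

/-- `F_n(M)(x)`. -/
def localN (M : PosetModule k C) : ℕ → ∀ x, Set (Submodule k (M.obj x))
  | 0 => localZero M
  | n + 1 => step M (localN M n)

/-- `F^F_n(M)(x)`, the version relative to `F`. -/
def relN (M : PosetModule k C) (F : ∀ x, Set (Submodule k (M.obj x))) :
    ℕ → ∀ x, Set (Submodule k (M.obj x))
  | 0 => fun x => gen (localZero M x ∪ F x)
  | n + 1 => step M (relN M F n)

/-- Stable local structure. -/
def Stable (M : PosetModule k C) : Prop :=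
  ∀ x, ∃ N, ∀ n ≥ N, localN M n x = localN M (n + 1) x

/-- Strongly stable local structure. -/
def StronglyStable (M : PosetModule k C) : Prop :=
  ∀ F : ∀ x, Set (Submodule k (M.obj x)), (∀ x, IsMultiFlag (F x) ∧ (F x).Finite) →
    ∃ N, ∀ x, (⋃ n, relN M F n x) = relN M F N x

end

/-- A poset is connected if it is nonempty and any two elements are joined by a zigzag of
comparable elements. -/
def PosetConnected (C : Type) [PartialOrder C] : Prop :=
  Nonempty C ∧ ∀ x y : C, Relation.ReflTransGen (fun u v => u ≤ v ∨ v ≤ u) x y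

section lemmas

variable {k : Type} [Field k]

theorem subset_gen {V : Type} [AddCommGroup V] [Module k V] (T : Set (Submodule k V)) :
    T ⊆ gen T := by
  intro W hW S hS
  exact hS.2 hW

theorem gen_subset {V : Type} [AddCommGroup V] [Module k V] {T S : Set (Submodule k V)}
    (hS : IsMultiFlag S) (h : T ⊆ S) : gen T ⊆ S := by
  intro W hW
  exact hW S ⟨hS, h⟩

theorem isMultiFlag_gen {V : Type} [AddCommGroup V] [Module k V] (T : Set (Submodule k V)) :
    IsMultiFlag (gen T) := by
  refine ⟨?_, ?_, ?_⟩
  · intro S hS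
    exact hS.1.1
  · intro S hS
    exact hS.1.2.1
  · intro R hR hne S hS
    exact hS.1.2.2 R (fun W hW => hR hW S hS) hne

theorem finite_gen {V : Type} [AddCommGroup V] [Module k V] {T : Set (Submodule k V)}
    (hT : T.Finite) : (gen T).Finite := by
  refine ((hT.finite_subsets.image sInf).insert ⊥).subset (gen_subset ?_ ?_)
  · refine ⟨Or.inl rfl, Or.inr ⟨∅, empty_subset _, sInf_empty⟩, ?_⟩
    intro R hR hne
    by_cases hbot : ⊥ ∈ R
    · left
      exact le_bot_iff.1 (sInf_le hbot)
    · right
      refine ⟨{W ∈ T | sInf R ≤ W}, fun W hW => hW.1, ?_⟩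
      apply le_antisymm
      · apply le_sInf
        intro W hW
        rcases hR hW with h | ⟨R', hR', h⟩
        · exact absurd (h ▸ hW) hbot
        · subst h
          apply le_sInf
          intro W' hW'
          apply sInf_le
          exact ⟨hR' hW', (sInf_le hW).trans (sInf_le hW')⟩
      · apply le_sInf
        rintro W ⟨-, hW⟩
        exact hW
  · intro W hW
    right
    exact ⟨{W}, singleton_subset_iff.2 hW, sInf_singleton⟩

variable {C : Type} [PartialOrder C]

theorem finite_localZero [Finite C] (M : PosetModule k C) (x : C) : (localZero M x).Finite := by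
  apply finite_gen
  refine Finite.union ?_ ?_
  · have : Finite {y : C // x ≤ y} := inferInstance
    refine (Set.finite_range fun y : {y : C // x ≤ y} => LinearMap.ker (M.map y.2)).subset ?_
    rintro W ⟨y, h, rfl⟩
    exact ⟨⟨y, h⟩, rfl⟩
  · refine (Set.finite_range fun y : {y : C // y ≤ x} => LinearMap.range (M.map y.2)).subset ?_
    rintro W ⟨y, h, rfl⟩
    exact ⟨⟨y, h⟩, rfl⟩

theorem finite_step [Finite C] (M : PosetModule k C) (G : ∀ x, Set (Submodule k (M.obj x)))
    (hG : ∀ x, (G x).Finite) (x : C) : (step M G x).Finite := by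
  apply finite_gen
  refine Finite.union ?_ ?_
  · refine (Set.finite_iUnion fun y : {y : C // x ≤ y} =>
      (hG y).image fun W' => W'.comap (M.map y.2)).subset ?_
    rintro W ⟨y, h, W', hW', rfl⟩
    exact mem_iUnion.2 ⟨⟨y, h⟩, W', hW', rfl⟩
  · refine (Set.finite_iUnion fun y : {y : C // y ≤ x} =>
      (hG y).image fun W' => W'.map (M.map y.2)).subset ?_
    rintro W ⟨y, h, W', hW', rfl⟩
    exact mem_iUnion.2 ⟨⟨y, h⟩, W', hW', rfl⟩

theorem finite_relN [Finite C] (M : PosetModule k C) (F : ∀ x, Set (Submodule k (M.obj x)))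
    (hF : ∀ x, (F x).Finite) (n : ℕ) : ∀ x, (relN M F n x).Finite := by
  induction n with
  | zero => intro x; exact finite_gen ((finite_localZero M x).union (hF x))
  | succ n ih => intro x; exact finite_step M _ ih x

theorem comap_mem_step (M : PosetModule k C) (G : ∀ x, Set (Submodule k (M.obj x))) {x y : C}
    (h : x ≤ y) {W : Submodule k (M.obj y)} (hW : W ∈ G y) :
    W.comap (M.map h) ∈ step M G x :=
  subset_gen _ (Or.inl ⟨y, h, W, hW, rfl⟩)

theorem map_mem_step (M : PosetModule k C) (G : ∀ x, Set (Submodule k (M.obj x))) {z x : C}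
    (h : z ≤ x) {W : Submodule k (M.obj z)} (hW : W ∈ G z) :
    W.map (M.map h) ∈ step M G x :=
  subset_gen _ (Or.inr ⟨z, h, W, hW, rfl⟩)

end lemmas

/-- The crown with two minimal elements `(false, _)` and two maximal elements `(true, _)`. -/
@[ext]
structure Crown where
  /-- the level -/
  lev : Bool
  /-- the position in the level -/
  pos : Bool
deriving DecidableEq, Fintype

instance : PartialOrder Crown where
  le x y := x = y ∨ (x.lev = false ∧ y.lev = true)
  le_refl x := Or.inl rfl
  le_trans x y z := by
    rintro (rfl | ⟨h1, h2⟩) (rfl | ⟨h3, h4⟩)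
    · exact Or.inl rfl
    · exact Or.inr ⟨h3, h4⟩
    · exact Or.inr ⟨h1, h2⟩
    · rw [h2] at h3; cases h3
  le_antisymm x y := by
    rintro (rfl | ⟨h1, h2⟩) (h | ⟨h3, h4⟩)
    · rfl
    · rfl
    · exact h.symm
    · rw [h2] at h3; cases h3

theorem Crown.le_def {x y : Crown} : x ≤ y ↔ (x = y ∨ (x.lev = false ∧ y.lev = true)) := Iff.rfl

theorem Crown.le_of {x y : Crown} (h1 : x.lev = false) (h2 : y.lev = true) : x ≤ y :=
  Or.inr ⟨h1, h2⟩

/-- the shear `(u, v) ↦ (u + v, v)` -/
def shear : (ℚ × ℚ) →ₗ[ℚ] (ℚ × ℚ) where
  toFun p := (p.1 + p.2, p.2)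
  map_add' p q := by ext <;> simp; ring
  map_smul' c p := by ext <;> simp; ring

theorem shear_injective : Function.Injective shear := by
  rintro ⟨a, b⟩ ⟨c, d⟩ h
  simp only [shear, LinearMap.coe_mk, AddHom.coe_mk, Prod.mk.injEq] at h
  obtain ⟨h1, h2⟩ := h
  subst h2
  simpa using h1

theorem shear_surjective : Function.Surjective shear := by
  rintro ⟨a, b⟩
  exact ⟨(a - b, b), by simp [shear]⟩

/-- structure maps of the counterexample -/
noncomputable def crownMap (x y : Crown) : (ℚ × ℚ) →ₗ[ℚ] (ℚ × ℚ) :=
  if x = ⟨false, true⟩ ∧ y = ⟨true, true⟩ then shear else LinearMap.id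

theorem crownMap_bijective (x y : Crown) : Function.Bijective (crownMap x y) := by
  unfold crownMap
  split_ifs
  · exact ⟨shear_injective, shear_surjective⟩
  · exact Function.bijective_id

theorem crownMap_self (x : Crown) : crownMap x x = LinearMap.id := by
  unfold crownMap
  rw [if_neg]
  rintro ⟨rfl, h⟩
  cases h

/-- the counterexample module -/
noncomputable def crownModule : PosetModule ℚ Crown where
  obj _ := ℚ × ℚ
  map {x y} _ := crownMap x y
  map_id x := crownMap_self x
  map_comp {x y z} h h' := by
    rcases h with rfl | ⟨h1, h2⟩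
    · rw [crownMap_self]; rfl
    · rcases h' with rfl | ⟨h3, h4⟩
      · rw [crownMap_self]; rfl
      · rw [h2] at h3; cases h3

theorem triv_isMultiFlag {k : Type} [Field k] {V : Type} [AddCommGroup V] [Module k V] :
    IsMultiFlag ({⊥, ⊤} : Set (Submodule k V)) := by
  refine ⟨Or.inl rfl, Or.inr rfl, ?_⟩
  intro T hT hne
  by_cases h : ⊥ ∈ T
  · left; exact le_bot_iff.1 (sInf_le h)
  · right
    rw [mem_singleton_iff, sInf_eq_top]
    intro W hW
    rcases hT hW with h' | h'
    · exact absurd (h' ▸ hW) h
    · exact h'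

theorem localN_crown (n : ℕ) (x : Crown) :
    localN crownModule n x = {⊥, ⊤} := by
  have aux : ∀ (T : Set (Submodule ℚ (crownModule.obj x))), T ⊆ {⊥, ⊤} → gen T = {⊥, ⊤} := by
    intro T hT
    apply Subset.antisymm (gen_subset triv_isMultiFlag hT)
    rintro W (rfl | rfl)
    · exact (isMultiFlag_gen T).1
    · exact (isMultiFlag_gen T).2.1
  induction n generalizing x with
  | zero =>
    apply aux
    rintro W (⟨y, h, rfl⟩ | ⟨z, h, rfl⟩)
    · left
      exact LinearMap.ker_eq_bot.2 (crownMap_bijective x y).1
    · right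
      exact LinearMap.range_eq_top.2 (crownMap_bijective z x).2
  | succ n ih =>
    apply aux
    rintro W (⟨y, h, W', hW', rfl⟩ | ⟨z, h, W', hW', rfl⟩)
    · rw [ih y (by
        intro T hT
        apply Subset.antisymm (gen_subset triv_isMultiFlag hT)
        rintro W (rfl | rfl)
        · exact (isMultiFlag_gen T).1
        · exact (isMultiFlag_gen T).2.1)] at hW'
      rcases hW' with rfl | rfl
      · left
        have := LinearMap.ker_eq_bot.2 (crownMap_bijective x y).1
        rwa [← Submodule.comap_bot] at this
      · right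
        exact Submodule.comap_top _
    · rw [ih z (by
        intro T hT
        apply Subset.antisymm (gen_subset triv_isMultiFlag hT)
        rintro W (rfl | rfl)
        · exact (isMultiFlag_gen T).1
        · exact (isMultiFlag_gen T).2.1)] at hW'
      rcases hW' with rfl | rfl
      · left
        exact Submodule.map_bot _
      · right
        have := LinearMap.range_eq_top.2 (crownMap_bijective z x).2
        rwa [← Submodule.map_top] at this

/-- The line spanned by `(n, 1)`. -/
def line (n : ℕ) : Submodule ℚ (ℚ × ℚ) := Submodule.span ℚ {((n : ℚ), (1 : ℚ))}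

theorem line_injective : Function.Injective line := by
  intro n m h
  have h1 : ((n : ℚ), (1 : ℚ)) ∈ line m := by
    rw [← h]
    exact Submodule.mem_span_singleton_self _
  obtain ⟨c, hc⟩ := Submodule.mem_span_singleton.1 h1
  simp only [Prod.smul_mk, smul_eq_mul, mul_one, Prod.mk.injEq] at hc
  obtain ⟨h2, h3⟩ := hc
  subst h3
  simpa using h2.symm

theorem shear_line (n : ℕ) : (line n).map shear = line (n + 1) := by
  unfold line
  rw [Submodule.map_span, image_singleton]
  congr 2
  simp [shear]

theorem crown_connected : PosetConnected Crown := by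
  refine ⟨⟨⟨false, false⟩⟩, ?_⟩
  intro x y
  have h1 : ∀ p : Bool, (⟨false, p⟩ : Crown) ≤ ⟨true, false⟩ := fun p => Crown.le_of rfl rfl
  have h2 : ∀ p : Bool, (⟨false, false⟩ : Crown) ≤ ⟨true, p⟩ := fun p => Crown.le_of rfl rfl
  have key1 : ∀ x : Crown, Relation.ReflTransGen (fun u v : Crown => u ≤ v ∨ v ≤ u) x
      ⟨false, false⟩ := by
    intro x
    obtain ⟨l, p⟩ := x
    cases l with
    | false =>
      refine Relation.ReflTransGen.tail (b := ⟨true, false⟩)
        (Relation.ReflTransGen.single ?_) ?_
      · exact Or.inl (h1 p)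
      · exact Or.inr (h1 false)
    | true =>
      refine Relation.ReflTransGen.single ?_
      exact Or.inr (h2 p)
  have key2 : ∀ x : Crown, Relation.ReflTransGen (fun u v : Crown => u ≤ v ∨ v ≤ u)
      ⟨false, false⟩ x := by
    intro x
    obtain ⟨l, p⟩ := x
    cases l with
    | false =>
      refine Relation.ReflTransGen.tail (b := ⟨true, false⟩)
        (Relation.ReflTransGen.single ?_) ?_
      · exact Or.inl (h1 false)
      · exact Or.inr (h1 p)
    | true =>
      refine Relation.ReflTransGen.single ?_
      exact Or.inl (h2 p)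
  exact (key1 x).trans (key2 y)

theorem crown_map_mem (G : ∀ x, Set (Submodule ℚ (crownModule.obj x))) {x y : Crown}
    (h : x ≤ y) {W : Submodule ℚ (ℚ × ℚ)} (hW : @Membership.mem (Submodule ℚ (ℚ × ℚ))
      (Set (Submodule ℚ (ℚ × ℚ))) _ (G x) W) :
    @Membership.mem (Submodule ℚ (ℚ × ℚ))
      (Set (Submodule ℚ (ℚ × ℚ))) _ (step crownModule G y) (W.map (crownMap x y)) :=
  map_mem_step crownModule G h hW

theorem crown_comap_mem (G : ∀ x, Set (Submodule ℚ (crownModule.obj x))) {x y : Crown}
    (h : x ≤ y) {W : Submodule ℚ (ℚ × ℚ)} (hW : @Membership.mem (Submodule ℚ (ℚ × ℚ))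
      (Set (Submodule ℚ (ℚ × ℚ))) _ (G y) W) :
    @Membership.mem (Submodule ℚ (ℚ × ℚ))
      (Set (Submodule ℚ (ℚ × ℚ))) _ (step crownModule G x) (W.comap (crownMap x y)) :=
  comap_mem_step crownModule G h hW

theorem crownMap_eq_id {x y : Crown} (h : ¬ (x = ⟨false, true⟩ ∧ y = ⟨true, true⟩)) :
    crownMap x y = LinearMap.id := if_neg h

theorem crownMap_eq_shear : crownMap ⟨false, true⟩ ⟨true, true⟩ = shear := if_pos ⟨rfl, rfl⟩

theorem crown_stable : Stable crownModule := by
  intro x
  exact ⟨0, fun n _ => by rw [localN_crown, localN_crown]⟩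

theorem crown_not_stronglyStable : ¬ StronglyStable crownModule := by
  intro hs
  classical
  -- the finite multi-flags
  let F : ∀ x : Crown, Set (Submodule ℚ (crownModule.obj x)) := fun _ => gen {line 0}
  obtain ⟨N, hN⟩ := hs F (fun x => ⟨isMultiFlag_gen _, finite_gen (finite_singleton _)⟩)
  have hfin : (⋃ n, relN crownModule F n ⟨false, false⟩).Finite := by
    rw [hN]
    exact finite_relN _ _ (fun x => finite_gen (finite_singleton _)) _ _
  have hmem : ∀ n, line n ∈ relN crownModule F (4 * n) ⟨false, false⟩ := by
    intro n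
    induction n with
    | zero =>
      apply subset_gen
      right
      apply subset_gen
      rfl
    | succ n ih =>
      have e1 := crown_map_mem _ (x := ⟨false, false⟩) (y := ⟨true, false⟩)
        (Crown.le_of rfl rfl) ih
      rw [crownMap_eq_id (by simp), Submodule.map_id] at e1
      have e2 := crown_comap_mem _ (x := ⟨false, true⟩) (y := ⟨true, false⟩)
        (Crown.le_of rfl rfl) e1
      rw [crownMap_eq_id (by simp), Submodule.comap_id] at e2
      have e3 := crown_map_mem _ (x := ⟨false, true⟩) (y := ⟨true, true⟩)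
        (Crown.le_of rfl rfl) e2
      rw [crownMap_eq_shear, shear_line] at e3
      have e4 := crown_comap_mem _ (x := ⟨false, false⟩) (y := ⟨true, true⟩)
        (Crown.le_of rfl rfl) e3
      rw [crownMap_eq_id (by simp), Submodule.comap_id] at e4
      exact e4
  have : (range line).Finite := by
    refine hfin.subset ?_
    rintro _ ⟨n, rfl⟩
    exact mem_iUnion.2 ⟨4 * n, hmem n⟩
  exact infinite_range_of_injective line_injective this

/-- There are a field `k`, a finite connected poset `C` and a `C`-module `M` whose local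
structure is stable but not strongly stable. -/
theorem result : ∃ (k : Type) (_ : Field k) (C : Type) (_ : PartialOrder C)
    (M : PosetModule k C), Finite C ∧ PosetConnected C ∧ Stable M ∧ ¬ StronglyStable M :=
  ⟨ℚ, inferInstance, Crown, inferInstance, crownModule, inferInstance, crown_connected,
    crown_stable, crown_not_stronglyStable⟩

end Pool.Agent.Results.MP_0548d2_gt.NotStrong
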